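import Pool.Agent.SFill.Torus3

open Set
open scoped ContDiff

namespace Pool.Agent.Results.MP_42aeef_gt.TorusInvariantFillings

open Pool.Agent.SFill

/-- **Theorem.** Let `n ≥ 1` and let `F` parametrise a symplectic filling of the standard contact
sphere `K` inside the closed unit ball of `ℂ^(n+1)` which is invariant under the rotations of the
first `n` coordinates. Then the filling is joined to the standard disc by a smooth family of
symplectic fillings, all of them invariant under these rotations. -/
theorem result : ∀ n : ℕ, 1 ≤ n → ∀ F : Cn n → Amb n, Fills F → TorusInvariant (F '' UB n) →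
    ∃ H : ℝ × Cn n → Amb n, ContDiff ℝ ∞ H ∧
      (∀ t ∈ Icc (0 : ℝ) 1, Fills (fun x => H (t, x)) ∧
        TorusInvariant ((fun x => H (t, x)) '' UB n)) ∧
      (fun x => H (0, x)) '' UB n = F '' UB n ∧ (fun x => H (1, x)) '' UB n = D0 n := by
  intro n hn F hF hT
  exact main_torus hn hF hT

end Pool.Agent.Results.MP_42aeef_gt.TorusInvariantFillings
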