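import Pool.Agent.SFill.Main

namespace Pool.Agent.Results.MP_42aeef_gt.TransverseFillings

open Pool.Agent.SFill

/-- **Theorem.** Let `n ≥ 1` and let `F` parametrise a symplectic filling of the standard contact
sphere `K` inside the closed unit ball of `ℂ^(n+1)`. If no tangent space of the filling contains a
nonzero vector of the direction of the last coordinate, then the filling is symplectically isotopic
to the standard disc. -/
theorem result : ∀ n : ℕ, 1 ≤ n → ∀ F : Cn n → Amb n, Fills F →
    (∀ x ∈ UB n, ∀ u, (tan F x u).1 = 0 → tan F x u = 0) → Isotopic (F '' UB n) (D0 n) := by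
  intro n hn F hF hT
  exact main hn hF fun x hx u hu => hF.embeds.2.2 x hx u (hT x hx u hu)

end Pool.Agent.Results.MP_42aeef_gt.TransverseFillings
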